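import Pool.Agent.J6H91.TZ.Stm2

/-!
# Project TZ2 (helper91), module TZ2-PRJ: projections of semialgebraic sets
-/

set_option autoImplicit false

namespace Pool.Agent.J6H61.TZ

open MvPolynomial Filter Topology Pool.Agent.Helper334_SA Pool.Agent.J6H91.TZ

/-- elimination of a vector of quantifiers (as `exists_vec` of `J6H20/TZ/Loj.lean`) -/
theorem exists_vec (ι : Type) [Finite ι] : ∀ (κ : Type) (p : (κ → ℝ) → (ι → ℝ) → Prop),
    SAP (fun w : κ ⊕ ι → ℝ => p (fun k => w (Sum.inl k)) (fun i => w (Sum.inr i))) →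
    SAP (fun w : κ → ℝ => ∃ x : ι → ℝ, p w x) := by
  refine Finite.induction_empty_option (P := fun ι => ∀ (κ : Type) (p : (κ → ℝ) → (ι → ℝ) → Prop),
    SAP (fun w : κ ⊕ ι → ℝ => p (fun k => w (Sum.inl k)) (fun i => w (Sum.inr i))) →
    SAP (fun w : κ → ℝ => ∃ x : ι → ℝ, p w x)) ?_ ?_ ?_ ι
  · intro α β e ih κ p hp
    have h := ih κ (fun w x => p w (fun b => x (e.symm b))) ?_
    · refine h.congr fun w => ⟨?_, ?_⟩
      · rintro ⟨x, hx⟩
        refine ⟨fun a => x (e a), ?_⟩
        simpa using hx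
      · rintro ⟨x, hx⟩
        exact ⟨_, hx⟩
    · exact hp.preimage (ι := κ ⊕ α)
        (φ := fun w o => Sum.elim (fun k => w (Sum.inl k)) (fun b => w (Sum.inr (e.symm b))) o)
        (fun o => by cases o <;> exact PF.coord _)
  · intro κ p hp
    have h := hp.preimage (ι := κ)
      (φ := fun w o => Sum.elim (fun k => w k) (fun b : PEmpty => b.elim) o)
      (fun o => by
        cases o with
        | inl k => exact PF.coord _
        | inr b => exact b.elim)
    refine h.congr fun w => ⟨?_, ?_⟩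
    · rintro ⟨x, hx⟩
      have : x = fun b : PEmpty => b.elim := funext fun b => b.elim
      rw [this] at hx
      exact hx
    · intro hx
      exact ⟨_, hx⟩
  · intro α _ ih κ p hp
    have h1 : SAP (fun u : Option (κ ⊕ α) → ℝ =>
        p (fun k => u (some (Sum.inl k))) (ext (u none) (fun i => u (some (Sum.inr i))))) := by
      exact hp.preimage (ι := Option (κ ⊕ α))
        (φ := fun u o => Sum.elim (fun k => u (some (Sum.inl k)))
          (fun b => ext (u none) (fun i => u (some (Sum.inr i))) b) o)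
        (fun o => by
          rcases o with k | (_ | b)
          · exact PF.coord _
          · exact PF.coord _
          · exact PF.coord _)
    have h2 := SAP.exists_real h1
    have h := ih κ (fun w x => ∃ t, p w (ext t x)) h2
    refine h.congr fun w => ⟨?_, ?_⟩
    · rintro ⟨x, hx⟩
      refine ⟨fun i => x (some i), x none, ?_⟩
      have : ext (x none) (fun i => x (some i)) = x := by
        funext o; cases o <;> rfl
      rw [this]
      exact hx
    · rintro ⟨x, t, hx⟩
      exact ⟨_, hx⟩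

theorem prj : S_PRJ := by
  intro ι κ _ _ e S hS
  have := Fintype.ofFinite κ
  have h1 : SAP (fun w : κ ⊕ ι → ℝ => (fun i => w (Sum.inr i)) ∈ S ∧
      ∀ k ∈ (Finset.univ : Finset κ), w (Sum.inr (e k)) = w (Sum.inl k)) := by
    refine SAP.and ?_ ?_
    · exact SA.preimage hS (φ := fun (w : κ ⊕ ι → ℝ) (i : ι) => w (Sum.inr i))
        (fun i => PF.coord _)
    · exact SAP.forall_mem _ fun k _ => SAP.eq (PF.coord _) (PF.coord _)
  have h2 := exists_vec ι κ (fun w x => x ∈ S ∧ ∀ k ∈ (Finset.univ : Finset κ), x (e k) = w k) h1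
  have h3 : (fun x : ι → ℝ => x ∘ e) '' S =
      {w : κ → ℝ | ∃ x : ι → ℝ, x ∈ S ∧ ∀ k ∈ (Finset.univ : Finset κ), x (e k) = w k} := by
    ext w
    constructor
    · rintro ⟨x, hx, rfl⟩
      exact ⟨x, hx, fun k _ => rfl⟩
    · rintro ⟨x, hx, hw⟩
      exact ⟨x, hx, funext fun k => hw k (Finset.mem_univ k)⟩
  rw [h3]
  exact h2

end Pool.Agent.J6H61.TZ
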